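import Pool.Agent.Y850.DL.Pos

set_option autoImplicit false

/-! Shifts of the directed landscape: mutual singularity for every nonzero function. -/

namespace Pool.Agent.Y850.DL

open MeasureTheory ProbabilityTheory Filter Topology
open Pool.Agent.W541.DL

/-- The law of the `h`-shift of `L` and the law of `L` are mutually singular: there is a measurable
set `U` of functions on the points `(x,s;y,t)` with values in the extended reals that almost surely
contains `L` and does not contain the `h`-shift of `L`; and for every random continuous function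
`L'` which almost surely equals the `h`-shift of `L` there is a Borel set of `C(R4, ℝ)` of
probability one for `L` and of probability zero for `L'`. -/
def MutSing {Ω : Type} [MeasurableSpace Ω] (h : ℝ × ℝ → ℝ) (P : Measure Ω)
    (L : Ω → C(R4, ℝ)) : Prop :=
  (∃ U : Set (R4 → EReal), MeasurableSet U ∧
    (∀ᵐ ω ∂P, (fun p => ((L ω p : ℝ) : EReal)) ∈ U) ∧ (∀ᵐ ω ∂P, shiftVal h (L ω) ∉ U)) ∧
  (∀ L' : Ω → C(R4, ℝ), (∀ᵐ ω ∂P, ∀ p : R4, ((L' ω p : ℝ) : EReal) = shiftVal h (L ω) p) →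
    ∃ U : Set C(R4, ℝ), MeasurableSet[borel C(R4, ℝ)] U ∧
      P {ω | L ω ∈ U} = 1 ∧ P {ω | L' ω ∈ U} = 0)

/-- The value at every point `(x,s;y,t)` is the supremum of the lengths of the continuous paths
from `(x,s)` to `(y,t)` (`shiftVal` with the function `0` is this supremum). -/
def PathSup (f : R4 → ℝ) : Prop := ∀ p : R4, ((f p : ℝ) : EReal) = shiftVal (fun _ => 0) f p

theorem mutSing_of_test {Ω : Type} [MeasurableSpace Ω] {h : ℝ × ℝ → ℝ} {P : Measure Ω}
    {L : Ω → C(R4, ℝ)} (hL : IsDirectedLandscape P L)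
    (key : ∀ η : ℝ, 0 < η → ∃ (g : (R4 → EReal) → ℝ) (θ : ℝ), Measurable g ∧
      P.real {ω | g (fun p : R4 => ((L ω p : ℝ) : EReal)) < θ} ≤ η ∧
      P.real {ω | θ ≤ g (shiftVal h (L ω))} ≤ η) : MutSing h P L := by
  have hP : IsProbabilityMeasure P := hL.prob
  have hmeas : Measurable (fun ω => (fun p : R4 => ((L ω p : ℝ) : EReal))) := by
    refine measurable_pi_lambda _ (fun p => ?_)
    exact measurable_coe_real_ereal.comp (hL.meas p)
  obtain ⟨U, hU, hU1, hU2⟩ := sing Ω (R4 → EReal) P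
    (fun ω => (fun p : R4 => ((L ω p : ℝ) : EReal))) (fun ω => shiftVal h (L ω)) hP hmeas key
  refine ⟨⟨U, hU, hU1, hU2⟩, fun L' hL' => ?_⟩
  refine ⟨{f : C(R4, ℝ) | (fun p : R4 => ((f p : ℝ) : EReal)) ∈ U}, ?_, ?_, ?_⟩
  · have hm : @Measurable C(R4, ℝ) (R4 → EReal) (borel _) _
        (fun f => (fun p : R4 => ((f p : ℝ) : EReal))) := by
      let _ : MeasurableSpace C(R4, ℝ) := borel _
      have : BorelSpace C(R4, ℝ) := ⟨rfl⟩
      refine measurable_pi_lambda _ (fun p => ?_)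
      exact measurable_coe_real_ereal.comp (continuous_eval_const p).measurable
    exact hm hU
  · have : ∀ᵐ ω ∂P, ω ∈ {ω | L ω ∈ {f : C(R4, ℝ) | (fun p : R4 => ((f p : ℝ) : EReal)) ∈ U}} := by
      filter_upwards [hU1] with ω hω
      exact hω
    exact (prob_compl_eq_zero_iff (hmeas hU)).1 this
  · have : ∀ᵐ ω ∂P, ω ∉ {ω | L' ω ∈ {f : C(R4, ℝ) | (fun p : R4 => ((f p : ℝ) : EReal)) ∈ U}} := by
      filter_upwards [hU2, hL'] with ω hω hω'
      intro hmem
      apply hω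
      have : shiftVal h (L ω) = fun p : R4 => ((L' ω p : ℝ) : EReal) := funext (fun p => (hω' p).symm)
      rw [this]
      exact hmem
    rw [ae_iff] at this
    simpa using this

/-- functions which are negative somewhere -/
theorem neg_case {Ω : Type} [MeasurableSpace Ω] {P : Measure Ω}
    {L : Ω → C(R4, ℝ)} (hL : IsDirectedLandscape P L) (h : ℝ × ℝ → ℝ) (h1 : Continuous h)
    (h2 : ∃ H, ∀ q, h q ≤ H) (q : ℝ × ℝ) (hq : h q < 0) : MutSing h P L := by
  obtain ⟨H0, hH0⟩ := h2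
  have hH : ∀ q, h q ≤ |H0| := fun q => (hH0 q).trans (le_abs_self _)
  obtain ⟨c, a, b, x0, t0, ρ, hc, ha, hb, hρ, hbox⟩ := box h h1 q hq
  have key := sep Ω P L hL h |H0| c a b x0 t0 ρ h1 hH (abs_nonneg _) hc ha hb hρ hbox
  refine mutSing_of_test hL fun η hη => ?_
  obtain ⟨A, θ, m, hA, hm, hs1, hs2⟩ := key η hη
  obtain ⟨hm1, hm2⟩ := ste A x0 t0 ρ m hA hm
  exact ⟨fun F => statE F A x0 t0 ρ m, θ, hm1, by simpa only [hm2] using hs1, hs2⟩

/-- functions which are positive somewhere -/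
theorem pos_case {Ω : Type} [MeasurableSpace Ω] {P : Measure Ω}
    {L : Ω → C(R4, ℝ)} (hL : IsDirectedLandscape P L) (hgeo : ∀ᵐ ω ∂P, PathSup (L ω))
    (h : ℝ × ℝ → ℝ) (h1 : Continuous h)
    (h2 : ∃ H, ∀ q, -H ≤ h q) (q : ℝ × ℝ) (hq : 0 < h q) : MutSing h P L := by
  obtain ⟨H0, hH0⟩ := h2
  have hH : ∀ q, -|H0| ≤ h q := fun q => (neg_le_neg (le_abs_self _)).trans (hH0 q)
  obtain ⟨c, a, b, x0, t0, ρ, hc, ha, hb, hρ, hbox⟩ := box (fun q => -h q) h1.neg q (by linarith)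
  have hbox' : ∀ z r, a ≤ z → z ≤ b → t0 ≤ r → r ≤ t0 + ρ → c ≤ h (z, r) := by
    intro z r e1 e2 e3 e4
    have := hbox z r e1 e2 e3 e4
    linarith
  have hgeo' : ∀ᵐ ω ∂P, Geo (L ω) := by
    filter_upwards [hgeo] with ω hω p
    exact (hω p).le
  refine mutSing_of_test hL fun η hη => ?_
  obtain ⟨A, θ, m, hA, hm, hs1, hs2⟩ := sep_pos hL hgeo' h |H0| c a b x0 t0 ρ h1 hH
    (abs_nonneg _) hc ha hb hρ hbox' η hη
  obtain ⟨hm1, hm2⟩ := ste A x0 t0 ρ m hA hm
  refine ⟨fun F => -statE F A x0 t0 ρ m, -θ, hm1.neg, ?_, ?_⟩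
  · simp only [hm2, neg_lt_neg_iff]
    exact hs1
  · simp only [neg_le_neg_iff]
    exact hs2

end Pool.Agent.Y850.DL
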