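import Pool.Agent.W541.DL.Asm

set_option autoImplicit false

/-! Shifts of the directed landscape by functions which are positive somewhere. -/

namespace Pool.Agent.Y850.DL

open MeasureTheory ProbabilityTheory Filter Topology Set
open Pool.Agent.W541.DL Pool.Agent.W431.DL.SHIFT Pool.Agent.W67.DL.PATHW Pool.Agent.W605.DL.SEP

/-- The value of `f` at every point `(x,s;y,t)` is (at most) the supremum of the lengths of the
continuous paths from `(x,s)` to `(y,t)`. -/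
def Geo (f : R4 → ℝ) : Prop := ∀ p : R4, ((f p : ℝ) : EReal) ≤ shiftVal (fun _ => 0) f p

theorem le_int {h : ℝ × ℝ → ℝ} (hc : Continuous h) {g : ℝ → ℝ} {s e K : ℝ} (he : 0 < e)
    (hg : ContinuousOn g (Icc s (s + e))) (hK : ∀ r ∈ Icc s (s + e), K ≤ h (g r, r)) :
    K * e ≤ ∫ r in s..(s + e), h (g r, r) := by
  have h1 := int_le (h := fun q => -h q) hc.neg (g := g) (K := -K) he hg
    (fun r hr => by have := hK r hr; linarith)
  rw [intervalIntegral.integral_neg] at h1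
  linarith

theorem exists_near {f : R4 → ℝ} (hf : Geo f) {x s e : ℝ} (he : 0 < e) {δ : ℝ} (hδ : 0 < δ) :
    ∃ g : ℝ → ℝ, ContinuousOn g (Icc s (s + e)) ∧ g s = x ∧ g (s + e) = x ∧
      ((val f x s x (s + e) - δ : ℝ) : EReal) < len f g s (s + e) := by
  have h1 := hf ⟨((x, s), (x, s + e)), by simpa using he⟩
  have h2 : ((val f x s x (s + e) - δ : ℝ) : EReal) <
      ((f ⟨((x, s), (x, s + e)), by simpa using he⟩ : ℝ) : EReal) := by
    have : val f x s x (s + e) = f ⟨((x, s), (x, s + e)), by simpa using he⟩ := by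
      unfold val
      rw [dif_pos (by linarith)]
    rw [this]
    exact_mod_cast sub_lt_self _ hδ
  have h3 := lt_of_lt_of_le h2 h1
  unfold shiftVal at h3
  obtain ⟨⟨g, hg, g0, g1⟩, hlt⟩ := lt_iSup_iff.1 h3
  refine ⟨g, hg, g0, g1, ?_⟩
  simpa using hlt

theorem le_shift {h : ℝ × ℝ → ℝ} {f : R4 → ℝ} {x s e : ℝ} (he : 0 < e) {g : ℝ → ℝ}
    (hg : ContinuousOn g (Icc s (s + e))) (g0 : g s = x) (g1 : g (s + e) = x) {v K : ℝ}
    (hv : ((v : ℝ) : EReal) < len f g s (s + e)) (hK : K ≤ ∫ r in s..(s + e), h (g r, r)) :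
    ((v + K : ℝ) : EReal) ≤ shiftVal h f ⟨((x, s), (x, s + e)), by simpa using he⟩ := by
  unfold shiftVal
  refine le_trans ?_ (le_iSup (fun g : {g : ℝ → ℝ // ContinuousOn g (Set.Icc s (s + e)) ∧
    g s = x ∧ g (s + e) = x} => (len f g.1 s (s + e) +
      ((∫ r in s..(s + e), h (g.1 r, r) : ℝ) : EReal))) ⟨g, hg, g0, g1⟩)
  rw [EReal.coe_add]
  exact add_le_add hv.le (by exact_mod_cast hK)

theorem le_of_forall_near {v : ℝ} {w : EReal} {δ₀ : ℝ} (hδ₀ : 0 < δ₀)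
    (h : ∀ δ : ℝ, 0 < δ → δ < δ₀ → ((v - δ : ℝ) : EReal) ≤ w) : ((v : ℝ) : EReal) ≤ w := by
  by_contra hcon
  rw [not_le] at hcon
  obtain ⟨z, hz1, hz2⟩ := EReal.lt_iff_exists_real_btwn.1 hcon
  have hz' : z < v := by exact_mod_cast hz2
  have h1 := h (min (v - z) (δ₀ / 2)) (lt_min (by linarith) (by linarith))
    (lt_of_le_of_lt (min_le_right _ _) (by linarith))
  have h2 := min_le_left (v - z) (δ₀ / 2)
  have h3 : ((z : ℝ) : EReal) ≤ ((v - min (v - z) (δ₀ / 2) : ℝ) : EReal) := by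
    exact_mod_cast (by linarith : z ≤ v - min (v - z) (δ₀ / 2))
  exact absurd (h3.trans h1) (not_le.2 hz1)

theorem shift_pos (h : ℝ × ℝ → ℝ) (H c : ℝ) (f : R4 → ℝ) (x s e a b : ℝ) (he : 0 < e)
    (hc : Continuous h) (hH : ∀ q, -H ≤ h q) (H0 : 0 ≤ H) (c0 : 0 < c) (hax : a < x) (hxb : x < b)
    (hpos : ∀ z r, a ≤ z → z ≤ b → s ≤ r → r ≤ s + e → c ≤ h (z, r)) (hf : Geo f) :
    ((val f x s x (s + e) - H * e : ℝ) : EReal) ≤
      shiftVal h f ⟨((x, s), (x, s + e)), by simpa using he⟩ ∧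
    ((∀ r, s < r → r < s + e → ∀ q : ℝ, (q = a ∨ q = b) →
        val f x s q r + val f q r x (s + e) + H * e ≤ val f x s x (s + e) - c * e) →
      ((val f x s x (s + e) + c * e : ℝ) : EReal) ≤
        shiftVal h f ⟨((x, s), (x, s + e)), by simpa using he⟩) := by
  constructor
  · refine le_of_forall_near one_pos fun δ hδ _ => ?_
    obtain ⟨g, hg, g0, g1, hlt⟩ := exists_near hf (x := x) (s := s) he hδ
    have h1 := le_int hc he hg (K := -H) (fun r _ => hH (g r, r))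
    have h2 := le_shift (h := h) he hg g0 g1 hlt h1
    refine le_trans (le_of_eq ?_) h2
    congr 1
    ring
  · intro hyp
    have hHc : 0 < (H + c) * e := by positivity
    refine le_of_forall_near hHc fun δ hδ hδ' => ?_
    obtain ⟨g, hg, g0, g1, hlt⟩ := exists_near hf (x := x) (s := s) he hδ
    have hin : ∀ r ∈ Icc s (s + e), a ≤ g r ∧ g r ≤ b := by
      by_contra hin
      push Not at hin
      obtain ⟨r0, hr0, hout⟩ := hin
      have hr0s : r0 ≠ s := by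
        rintro rfl
        have := hout (by rw [g0]; exact hax.le)
        rw [g0] at this
        linarith
      have hr0e : r0 ≠ s + e := by
        rintro rfl
        have := hout (by rw [g1]; exact hax.le)
        rw [g1] at this
        linarith
      have hs0 : s < r0 := lt_of_le_of_ne hr0.1 (Ne.symm hr0s)
      have h0e : r0 < s + e := lt_of_le_of_ne hr0.2 hr0e
      have hg' : ContinuousOn g (Icc s r0) := hg.mono (Icc_subset_Icc le_rfl hr0.2)
      have key : ∃ r, s < r ∧ r < s + e ∧ (g r = a ∨ g r = b) := by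
        by_cases ha : a ≤ g r0
        · have hb := hout ha
          obtain ⟨r, hr, hgr⟩ := intermediate_value_Icc hs0.le hg'
            (show b ∈ Icc (g s) (g r0) from ⟨by rw [g0]; exact hxb.le, hb.le⟩)
          refine ⟨r, lt_of_le_of_ne hr.1 ?_, lt_of_le_of_lt hr.2 h0e, Or.inr hgr⟩
          rintro rfl
          rw [g0] at hgr
          linarith
        · push Not at ha
          obtain ⟨r, hr, hgr⟩ := intermediate_value_Icc' hs0.le hg'
            (show a ∈ Icc (g r0) (g s) from ⟨ha.le, by rw [g0]; exact hax.le⟩)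
          refine ⟨r, lt_of_le_of_ne hr.1 ?_, lt_of_le_of_lt hr.2 h0e, Or.inl hgr⟩
          rintro rfl
          rw [g0] at hgr
          linarith
      obtain ⟨r, hr1, hr2, hq⟩ := key
      have e1 := len2 f g hr1 hr2 g0 g1
      have e3 := hyp r hr1 hr2 (g r) hq
      have e4 := lt_of_lt_of_le hlt e1
      have e5 : val f x s x (s + e) - δ < val f x s (g r) r + val f (g r) r x (s + e) := by
        exact_mod_cast e4
      linarith
    have h1 := le_int hc he hg (K := c) (fun r hr => hpos _ _ (hin r hr).1 (hin r hr).2 hr.1 hr.2)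
    have h2 := le_shift (h := h) he hg g0 g1 hlt h1
    refine le_trans (le_of_eq ?_) h2
    congr 1
    ring

theorem cl_sub (A y d : ℝ) (hd : 0 ≤ d) : cl A y - d ≤ cl A (y - d) := by
  have h := cl_add A (y - d) d hd
  rw [sub_add_cancel] at h
  linarith

theorem pathw_pos (h : ℝ × ℝ → ℝ) (f : R4 → ℝ) (A H c a b x0 t0 ρ : ℝ) (m : ℕ)
    (hcont : Continuous h) (hH : ∀ q, -H ≤ h q) (hH0 : 0 ≤ H) (hc : 0 < c) (ha : a < x0)
    (hb : x0 + ρ < b) (hρ : 0 < ρ) (hA : 1 ≤ A) (hm : 1 ≤ m) (hcm : c ≤ (m : ℝ) ^ 6)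
    (hpos : ∀ z r, a ≤ z → z ≤ b → t0 ≤ r → r ≤ t0 + ρ → c ≤ h (z, r)) (hf : Geo f) :
    stat f A x0 t0 ρ m - ((H + c) * nBad f A H c a b x0 t0 ρ m - c * (nJ ρ m * nI ρ m : ℕ)) /
      (m : ℝ) ^ 6 ≤ statE (shiftVal h f) A x0 t0 ρ m := by
  have hM : (1 : ℝ) ≤ (m : ℝ) := by exact_mod_cast hm
  have hM0 : (0 : ℝ) < (m : ℝ) := by linarith
  have hM3 : (0 : ℝ) < (m : ℝ) ^ 3 := by positivity
  have hM5 : (0 : ℝ) < (m : ℝ) ^ 5 := by positivity
  have hM6 : (0 : ℝ) < (m : ℝ) ^ 6 := by positivity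
  have hM9 : (0 : ℝ) < (m : ℝ) ^ 9 := by positivity
  -- one cell
  have cell : ∀ j ∈ Finset.range (nJ ρ m), ∀ i ∈ Finset.range (nI ρ m),
      (cl A (m ^ 3 * cellv f x0 t0 m i j) - H / (m : ℝ) ^ 6 ≤
        (m : ℝ) ^ 3 * clE (A / (m : ℝ) ^ 3) (valE (shiftVal h f) (x0 + 3 * i / m ^ 5)
          (t0 + j / m ^ 9) (x0 + 3 * i / m ^ 5) (t0 + (j + 1) / m ^ 9))) ∧
      (GoodCell f A H c a b x0 t0 m i j →
        cl A (m ^ 3 * cellv f x0 t0 m i j) + c / (m : ℝ) ^ 6 ≤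
        (m : ℝ) ^ 3 * clE (A / (m : ℝ) ^ 3) (valE (shiftVal h f) (x0 + 3 * i / m ^ 5)
          (t0 + j / m ^ 9) (x0 + 3 * i / m ^ 5) (t0 + (j + 1) / m ^ 9))) := by
    intro j hj i hi
    rw [Finset.mem_range] at hj hi
    set x : ℝ := x0 + 3 * i / m ^ 5 with hx
    set s : ℝ := t0 + j / m ^ 9 with hs
    set e : ℝ := 1 / (m : ℝ) ^ 9 with he
    have he0 : 0 < e := by positivity
    have hse : t0 + ((j : ℝ) + 1) / (m : ℝ) ^ 9 = s + e := by
      rw [hs, he]; ring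
    have hj1 : ((j : ℝ) + 1) / (m : ℝ) ^ 9 ≤ ρ := by
      rw [div_le_iff₀ hM9]
      have h1 : ((nJ ρ m : ℕ) : ℝ) ≤ ρ * (m : ℝ) ^ 9 := Nat.floor_le (by positivity)
      have h2 : ((j + 1 : ℕ) : ℝ) ≤ (nJ ρ m : ℕ) := by exact_mod_cast hj
      push_cast at h2
      linarith
    have hj0 : 0 ≤ (j : ℝ) / (m : ℝ) ^ 9 := by positivity
    have hi1 : 3 * (i : ℝ) / (m : ℝ) ^ 5 ≤ ρ := by
      rw [div_le_iff₀ hM5]
      have h1 : ((nI ρ m : ℕ) : ℝ) ≤ ρ * (m : ℝ) ^ 5 / 3 := Nat.floor_le (by positivity)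
      have h2 : ((i : ℕ) : ℝ) ≤ (nI ρ m : ℕ) := by exact_mod_cast hi.le
      linarith
    have hi0 : 0 ≤ 3 * (i : ℝ) / (m : ℝ) ^ 5 := by positivity
    have hax : a < x := by rw [hx]; linarith
    have hxb : x < b := by rw [hx]; linarith
    have hspos : ∀ z r, a ≤ z → z ≤ b → s ≤ r → r ≤ s + e → c ≤ h (z, r) := by
      intro z r h1 h2 h3 h4
      refine hpos z r h1 h2 ?_ ?_
      · have : t0 ≤ s := by rw [hs]; linarith
        linarith
      · have : s + e ≤ t0 + ρ := by rw [← hse]; linarith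
        linarith
    obtain ⟨hs1, hs2⟩ := shift_pos h H c f x s e a b he0 hcont hH hH0 hc hax hxb hspos hf
    have hcv : cellv f x0 t0 m i j = val f x s x (s + e) := by
      unfold cellv
      rw [hse]
    have hvE : valE (shiftVal h f) x s x (s + e) =
        shiftVal h f ⟨((x, s), (x, s + e)), by simpa using he0⟩ := by
      unfold valE
      rw [dif_pos (by linarith)]
    rw [hse, hvE, hcv]
    set v := val f x s x (s + e) with hv
    have hHe : (m : ℝ) ^ 3 * (v - H * e) = (m : ℝ) ^ 3 * v - H / (m : ℝ) ^ 6 := by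
      rw [he]
      field_simp
    have hce : (m : ℝ) ^ 3 * (v + c * e) = (m : ℝ) ^ 3 * v + c / (m : ℝ) ^ 6 := by
      rw [he]
      field_simp
    constructor
    · have h1 := clE_mono (A / (m : ℝ) ^ 3) hs1
      rw [clE_coe] at h1
      refine le_trans ?_ (mul_le_mul_of_nonneg_left h1 hM3.le)
      rw [cl_scale A _ _ hM3, hHe]
      exact cl_sub _ _ _ (by positivity)
    · rintro ⟨hg1, hg2⟩
      rw [hcv] at hg1
      have hcond : ∀ r, s < r → r < s + e → ∀ q : ℝ, (q = a ∨ q = b) →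
          val f x s q r + val f q r x (s + e) + H * e ≤ val f x s x (s + e) - c * e := by
        intro r hr1 hr2 q hq
        have h3 := hg2 r hr1 (by rw [hse]; exact hr2) q hq
        rw [hcv, hse] at h3
        have e1 : H / (m : ℝ) ^ 9 = H * e := by rw [he]; ring
        have e2 : c / (m : ℝ) ^ 9 = c * e := by rw [he]; ring
        rw [e1, e2] at h3
        exact h3
      have h1 := clE_mono (A / (m : ℝ) ^ 3) (hs2 hcond)
      rw [clE_coe] at h1
      refine le_trans ?_ (mul_le_mul_of_nonneg_left h1 hM3.le)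
      rw [cl_scale A _ _ hM3, hce]
      have hc6 : c / (m : ℝ) ^ 6 ≤ 1 := by
        rw [div_le_one hM6]; exact hcm
      have hc60 : 0 ≤ c / (m : ℝ) ^ 6 := by positivity
      obtain ⟨h4, h5⟩ := abs_le.1 hg1
      rw [cl_id A _ (by linarith) (by linarith), cl_id A _ (by linarith) (by linarith)]
  -- summation
  unfold statE stat nBad
  rw [Finset.card_filter]
  have e1 : ∀ F : ℕ → ℕ → ℝ, ∑ j ∈ Finset.range (nJ ρ m), ∑ i ∈ Finset.range (nI ρ m), F j i =
      ∑ z ∈ Finset.range (nJ ρ m) ×ˢ Finset.range (nI ρ m), F z.1 z.2 := by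
    intro F
    rw [Finset.sum_product]
  rw [e1, e1]
  have e2 : ((nJ ρ m * nI ρ m : ℕ) : ℝ) =
      ∑ z ∈ Finset.range (nJ ρ m) ×ˢ Finset.range (nI ρ m), (1 : ℝ) := by
    rw [Finset.sum_const, Finset.card_product, Finset.card_range, Finset.card_range]
    simp
  rw [e2, Nat.cast_sum, Finset.mul_sum, Finset.mul_sum, ← Finset.sum_sub_distrib,
    Finset.sum_div, ← Finset.sum_sub_distrib]
  refine Finset.sum_le_sum ?_
  rintro ⟨j, i⟩ hz
  rw [Finset.mem_product] at hz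
  obtain ⟨h1, h2⟩ := cell j hz.1 i hz.2
  simp only
  by_cases hg : GoodCell f A H c a b x0 t0 m i j
  · rw [if_neg (not_not.2 hg)]
    refine le_trans (le_of_eq ?_) (h2 hg)
    push_cast
    ring
  · rw [if_pos hg]
    refine le_trans (le_of_eq ?_) h1
    push_cast
    ring

theorem sep_pos {Ω : Type} [MeasurableSpace Ω] {P : Measure Ω} {L : Ω → C(R4, ℝ)}
    (hL : IsDirectedLandscape P L) (hgeo : ∀ᵐ ω ∂P, Geo (L ω)) (h : ℝ × ℝ → ℝ)
    (H c a b x0 t0 ρ : ℝ) (hh : Continuous h) (hH : ∀ q, -H ≤ h q) (hH0 : 0 ≤ H) (hc : 0 < c)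
    (hax : a < x0) (hxb : x0 + ρ < b) (hρ : 0 < ρ)
    (hpos : ∀ z r, a ≤ z → z ≤ b → t0 ≤ r → r ≤ t0 + ρ → c ≤ h (z, r)) (η : ℝ) (hη : 0 < η) :
    ∃ (A θ : ℝ) (m : ℕ), 0 < A ∧ 1 ≤ m ∧
      P.real {ω | θ < stat (L ω) A x0 t0 ρ m} ≤ η ∧
      P.real {ω | statE (shiftVal h (L ω)) A x0 t0 ρ m ≤ θ} ≤ η := by
  have := hL.prob
  obtain ⟨κ, hκ⟩ : ∃ κ : ℝ, κ = c / (2 * (H + c)) := ⟨_, rfl⟩
  have hHc : 0 < H + c := by linarith
  have hκ0 : 0 < κ := by rw [hκ]; positivity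
  have hκ2 : (H + c) * κ = c / 2 := by rw [hκ]; field_simp
  obtain ⟨A, hA, hBad⟩ := badc Ω P L hL H c a b x0 t0 ρ (η * κ / 4) hH0 hc hax hxb hρ (by positivity)
  have hA0 : 0 < A := by linarith
  obtain ⟨C, hC, hVar⟩ := Pool.Agent.W541.DL.var Ω P L hL A hA0 x0 t0 ρ hρ
  obtain ⟨c1, hc1⟩ : ∃ c1 : ℝ, c1 = c * ρ ^ 2 / 24 := ⟨_, rfl⟩
  have hc10 : 0 < c1 := by rw [hc1]; positivity
  have hlarge : ∀ᶠ m : ℕ in atTop,
      max (max c (6 / ρ)) (64 * C / (η * c1 ^ 2)) ≤ (m : ℝ) :=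
    tendsto_natCast_atTop_atTop.eventually_ge_atTop _
  obtain ⟨m, hm1, hm2, hm3, hm4⟩ :=
    (hBad.and (hVar.and (hlarge.and (eventually_ge_atTop 1)))).exists
  have hmc : c ≤ (m : ℝ) := ((le_max_left _ _).trans (le_max_left _ _)).trans hm3
  have hmρ : 6 / ρ ≤ (m : ℝ) := ((le_max_right _ _).trans (le_max_left _ _)).trans hm3
  have hmC : 64 * C / (η * c1 ^ 2) ≤ (m : ℝ) := (le_max_right _ _).trans hm3
  have hm1R : (1 : ℝ) ≤ (m : ℝ) := by exact_mod_cast hm4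
  have hm0R : (0 : ℝ) < (m : ℝ) := by linarith
  have hpow : ∀ k : ℕ, 1 ≤ k → (m : ℝ) ≤ (m : ℝ) ^ k := fun k hk =>
    le_self_pow₀ hm1R (by omega)
  have h6ρ : 6 ≤ ρ * (m : ℝ) := by
    rw [div_le_iff₀ hρ] at hmρ; linarith
  have hJ : ρ * (m : ℝ) ^ 9 / 2 ≤ (nJ ρ m : ℝ) := by
    unfold nJ
    apply floor_half
    have := mul_le_mul_of_nonneg_left (hpow 9 (by norm_num)) hρ.le
    linarith
  have hI : ρ * (m : ℝ) ^ 5 / 6 ≤ (nI ρ m : ℝ) := by
    unfold nI
    have h1 : 2 ≤ ρ * (m : ℝ) ^ 5 / 3 := by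
      have := mul_le_mul_of_nonneg_left (hpow 5 (by norm_num)) hρ.le
      linarith
    have := floor_half _ h1
    linarith
  obtain ⟨N, hNd⟩ : ∃ N : ℝ, N = ((nJ ρ m * nI ρ m : ℕ) : ℝ) := ⟨_, rfl⟩
  have hNlow : ρ ^ 2 * (m : ℝ) ^ 14 / 12 ≤ N := by
    rw [hNd]
    push_cast
    calc ρ ^ 2 * (m : ℝ) ^ 14 / 12 = (ρ * (m : ℝ) ^ 9 / 2) * (ρ * (m : ℝ) ^ 5 / 6) := by ring
      _ ≤ (nJ ρ m : ℝ) * (nI ρ m : ℝ) := by
        apply mul_le_mul hJ hI (by positivity) (by positivity)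
  have hkey : c1 * (m : ℝ) ^ 8 ≤ c / 2 * N / (m : ℝ) ^ 6 := by
    rw [le_div_iff₀ (by positivity)]
    have : c1 * (m : ℝ) ^ 8 * (m : ℝ) ^ 6 = c / 2 * (ρ ^ 2 * (m : ℝ) ^ 14 / 12) := by
      rw [hc1]; ring
    rw [this]
    exact mul_le_mul_of_nonneg_left hNlow (by positivity)
  -- Chebyshev
  obtain ⟨Y, hY⟩ : ∃ Y : Ω → ℝ, Y = fun ω => stat (L ω) A x0 t0 ρ m := ⟨_, rfl⟩
  have hYm : Measurable Y := by rw [hY]; exact stat_meas hL A x0 t0 ρ m
  have hYL : MemLp Y 2 P := by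
    refine MemLp.of_bound hYm.aestronglyMeasurable (nJ ρ m * (nI ρ m * A))
      (Eventually.of_forall fun ω => ?_)
    rw [hY, Real.norm_eq_abs]
    exact stat_bound A x0 t0 ρ m hA0.le
  obtain ⟨e, he⟩ : ∃ e : ℝ, e = ∫ ω, Y ω ∂P := ⟨_, rfl⟩
  have hq : 0 < c1 * (m : ℝ) ^ 8 / 4 := by positivity
  have hcheb : P.real {ω | c1 * (m : ℝ) ^ 8 / 4 ≤ |Y ω - e|} ≤ η / 4 := by
    have h1 := meas_ge_le_variance_div_sq hYL hq
    rw [← he] at h1
    have h2 : P.real {ω | c1 * (m : ℝ) ^ 8 / 4 ≤ |Y ω - e|}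
        ≤ Var[Y; P] / (c1 * (m : ℝ) ^ 8 / 4) ^ 2 :=
      ENNReal.toReal_le_of_le_ofReal
        (div_nonneg (variance_nonneg _ _) (by positivity)) h1
    refine h2.trans ?_
    rw [div_le_iff₀ (by positivity)]
    rw [← hY] at hm2
    refine hm2.trans ?_
    rw [div_le_iff₀ (by positivity)] at hmC
    have h3 : η / 4 * (c1 * (m : ℝ) ^ 8 / 4) ^ 2 = (η * c1 ^ 2 * (m : ℝ) ^ 2) / 64 * (m : ℝ) ^ 14 := by
      ring
    rw [h3]
    apply mul_le_mul_of_nonneg_right _ (by positivity)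
    have h4 : η * c1 ^ 2 * (m : ℝ) ≤ η * c1 ^ 2 * (m : ℝ) ^ 2 :=
      mul_le_mul_of_nonneg_left (hpow 2 (by norm_num)) (by positivity)
    linarith
  have hbad : P.real {ω | κ * N < nBad (L ω) A H c a b x0 t0 ρ m} ≤ η / 4 := by
    have h1 := nbad Ω P (fun ω => (L ω : R4 → ℝ)) A H c a b x0 t0 ρ (η * κ / 4) κ m hL.prob
      (by positivity) hκ0 hm1
    rw [hNd]
    refine h1.trans (le_of_eq ?_)
    field_simp
  refine ⟨A, e + c1 * (m : ℝ) ^ 8 / 2, m, hA0, hm4, ?_, ?_⟩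
  · have h1 : {ω | e + c1 * (m : ℝ) ^ 8 / 2 < stat (L ω) A x0 t0 ρ m}
        ⊆ {ω | c1 * (m : ℝ) ^ 8 / 4 ≤ |Y ω - e|} := by
      intro ω hω
      rw [Set.mem_ofPred_eq] at hω ⊢
      have h2 : e + c1 * (m : ℝ) ^ 8 / 2 < Y ω := by rw [hY]; exact hω
      refine le_trans ?_ (le_abs_self _)
      linarith
    have h2 := measureReal_mono (μ := P) h1 (measure_ne_top _ _)
    linarith
  · have h1 : {ω | statE (shiftVal h (L ω)) A x0 t0 ρ m ≤ e + c1 * (m : ℝ) ^ 8 / 2}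
        ⊆ {ω | ¬ Geo (L ω)} ∪ ({ω | κ * N < nBad (L ω) A H c a b x0 t0 ρ m} ∪
          {ω | c1 * (m : ℝ) ^ 8 / 4 ≤ |Y ω - e|}) := by
      intro ω hω
      rw [Set.mem_ofPred_eq] at hω
      rw [Set.mem_union, Set.mem_union, Set.mem_ofPred_eq, Set.mem_ofPred_eq, Set.mem_ofPred_eq]
      by_cases hgω : Geo (L ω)
      swap
      · exact Or.inl hgω
      right
      by_cases hb : κ * N < nBad (L ω) A H c a b x0 t0 ρ m
      · exact Or.inl hb
      · right
        push Not at hb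
        have h2 := pathw_pos h (L ω) A H c a b x0 t0 ρ m hh hH hH0 hc hax hxb hρ hA hm4
          (hmc.trans (hpow 6 (by norm_num))) hpos hgω
        rw [← hNd] at h2
        have h3 : ((H + c) * (nBad (L ω) A H c a b x0 t0 ρ m : ℝ) - c * N) / (m : ℝ) ^ 6
            ≤ -(c / 2 * N / (m : ℝ) ^ 6) := by
          rw [← neg_div]
          apply div_le_div_of_nonneg_right _ (by positivity)
          have h4 := mul_le_mul_of_nonneg_left hb hHc.le
          have h5 : (H + c) * (κ * N) = c / 2 * N := by rw [← mul_assoc, hκ2]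
          rw [h5] at h4
          linarith
        have h6 : Y ω + c1 * (m : ℝ) ^ 8 ≤ statE (shiftVal h (L ω)) A x0 t0 ρ m := by
          rw [hY]
          simp only []
          linarith
        rw [abs_sub_comm]
        refine le_trans ?_ (le_abs_self _)
        linarith
    have h2 := measureReal_mono (μ := P) h1 (measure_ne_top _ _)
    have h3 := measureReal_union_le (μ := P) {ω | κ * N < nBad (L ω) A H c a b x0 t0 ρ m}
      {ω | c1 * (m : ℝ) ^ 8 / 4 ≤ |Y ω - e|}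
    have h4 := measureReal_union_le (μ := P) {ω | ¬ Geo (L ω)}
      ({ω | κ * N < nBad (L ω) A H c a b x0 t0 ρ m} ∪ {ω | c1 * (m : ℝ) ^ 8 / 4 ≤ |Y ω - e|})
    have h5 : P.real {ω | ¬ Geo (L ω)} = 0 := by
      have h6 : P {ω | ¬ Geo (L ω)} = 0 := by rw [← ae_iff]; exact hgeo
      unfold Measure.real
      rw [h6]
      rfl
    linarith

end Pool.Agent.Y850.DL
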